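import Mathlib
import Pool.Agent.H.MP_df1ab4_co.A

namespace Pool.Agent.Results.MP_df1ab4_co.No

def sub {α : Type} (W : List α) (p : ℕ → Bool) : List (Option α) :=
  ((List.range W.length).filter p).map fun i => W[i]?

def ShSq {α : Type} (W : List α) : Prop := ∃ p : ℕ → Bool, sub W p = sub W fun i => !p i

def CutLe {α : Type} (W : List α) (c : ℕ) : Prop :=
  ∃ Bs Cs : List (List α), Bs.length ≤ c + 1 ∧ Bs.flatten = W ∧ Cs.Perm Bs ∧ ShSq Cs.flatten

theorem result : (∀ k c : ℕ, 5 ≤ k → ∃ W : List (Fin k), (∀ a, Even (W.count a)) ∧ ¬ CutLe W c) ∧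
    ¬ ∀ k : ℕ, 2 ≤ k → ∀ W : List (Fin k), (∀ a, Even (W.count a)) → CutLe W k :=
  Pool.Agent.H.MP_df1ab4_co.main

end Pool.Agent.Results.MP_df1ab4_co.No
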